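import Mathlib
import Pool.Agent.Lib.MP_03314f_an.Main

open Set Real Pool.Agent.Lib.MP_03314f_an

/-- The value of `A₃(M)` for every `M ≥ e`. -/
theorem Pool.Agent.Results.MP_03314f_an.ThirdCoeff.result :
    ∃ M₀ M₁ : ℝ, exp 1 < M₀ ∧ M₀ < M₁ ∧ M₁ < 5 ∧
    (∀ M, exp 1 ≤ M → (M = M₀ ↔ eta √(1 - 1 / M ^ 2) = (√(1 - 1 / M ^ 2) + 1 / M) / M)) ∧
    (∀ M, exp 1 ≤ M →
      (M = M₁ ↔ (2 * M - 3) * √(M * (M - 1)) = (4 * M - 5) * log (√M + √(M - 1)))) ∧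
    (∀ M, exp 1 ≤ M → M ≤ M₀ → IsLUB (coeffSet M) (1 - 1 / M ^ 2)) ∧
    (∀ M, M₀ < M → M < M₁ → ∃ k φ : ℝ,
      (∀ k' φ' : ℝ, (k' ∈ Ioo 0 1 ∧ φ' ∈ Ioo 0 (π / 2) ∧ logBound k' φ' = log M ∧ crit k' φ' = 0)
        ↔ (k' = k ∧ φ' = φ)) ∧ IsLUB (coeffSet M) (coeffVal k φ)) ∧
    (∀ M, M₁ ≤ M → IsLUB (coeffSet M) (3 - 8 / M + 5 / M ^ 2)) :=
  main
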